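import Mathlib

/-! Commutation in free groups. -/

set_option autoImplicit false

namespace Pool.Agent.MP_3ce0a0_al.Q2T4A

open Subgroup

variable {G : Type} [Group G]

/-- `c` is not trivial and generates its own centraliser. -/
def MaxCyc (c : G) : Prop := c ≠ 1 ∧ ∀ x, Commute x c → x ∈ zpowers c

/-- A homomorphism with non-abelian image. -/
def NonAb {A : Type} [Group A] (ψ : A →* G) : Prop := ∃ x y, ¬ Commute (ψ x) (ψ y)

theorem free_center {β : Type} [Nontrivial β] (x : FreeGroup β)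
    (hx : ∀ c, Commute (FreeGroup.of c) x) : x = 1 := by
  classical
  by_contra hne
  have hw : x.toWord ≠ [] := fun h => hne (FreeGroup.toWord_eq_nil_iff.1 h)
  obtain ⟨a, w, hw'⟩ := List.exists_cons_of_ne_nil hw
  obtain ⟨c, hc⟩ := exists_ne a.1
  have h1 : (FreeGroup.of c * x).toWord = (c, true) :: x.toWord := by
    rw [FreeGroup.toWord_mul, FreeGroup.toWord_of, List.singleton_append, FreeGroup.reduce.cons,
      FreeGroup.reduce_toWord, hw']
    simp [hc]
  have h2 : FreeGroup.Red (x.toWord ++ [(c, true)]) ((c, true) :: x.toWord) := by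
    rw [← h1, (hx c).eq, FreeGroup.toWord_mul, FreeGroup.toWord_of]
    exact FreeGroup.reduce.red
  have h3 := h2.sublist.eq_of_length (by simp)
  rw [hw'] at h3
  simp only [List.cons_append, List.cons.injEq] at h3
  exact hc (by rw [← h3.1])

variable [IsFreeGroup G]

instance tf : IsMulTorsionFree G where
  pow_left_injective n hn a b h := by
    apply (IsFreeGroup.toFreeGroup G).injective
    apply pow_left_injective hn
    simpa only [map_pow] using congrArg (IsFreeGroup.toFreeGroup G) h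

/-- A free group with a non-trivial central element is cyclic. -/
theorem cyclic_of_central {b : G} (hb : b ≠ 1) (h : ∀ x, Commute x b) : IsCyclic G := by
  let e := IsFreeGroup.toFreeGroup G
  have hsub : Subsingleton (IsFreeGroup.Generators G) := by
    by_contra hn
    rw [not_subsingleton_iff_nontrivial] at hn
    apply hb
    apply e.injective
    rw [map_one]
    refine free_center _ fun c => ?_
    simpa using (h (e.symm (FreeGroup.of c))).map e
  have hcyc : IsCyclic (FreeGroup (IsFreeGroup.Generators G)) := by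
    rcases isEmpty_or_nonempty (IsFreeGroup.Generators G) with h | ⟨⟨a⟩⟩
    · infer_instance
    · let _ : Unique (IsFreeGroup.Generators G) := uniqueOfSubsingleton a
      infer_instance
  exact isCyclic_of_surjective e.symm e.symm.surjective

/-- Centralisers are cyclic. -/
theorem cent_cyc {b : G} (hb : b ≠ 1) : ∃ r : G, ∀ x, Commute x b ↔ x ∈ zpowers r := by
  let H := centralizer ({b} : Set G)
  have hm : ∀ x, x ∈ H ↔ Commute x b := fun x => by
    rw [mem_centralizer_singleton_iff]; rfl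
  have hc : IsCyclic H := cyclic_of_central (b := ⟨b, (hm b).2 rfl⟩)
    (fun h => hb (congrArg Subtype.val h)) fun x => Subtype.ext ((hm _).1 x.2)
  obtain ⟨z, hz⟩ := hc.exists_zpow_surjective
  refine ⟨z, fun x => ⟨fun h => ?_, ?_⟩⟩
  · obtain ⟨i, hi⟩ := hz ⟨x, (hm x).2 h⟩
    exact ⟨i, by simpa using congrArg Subtype.val hi⟩
  · rintro ⟨i, rfl⟩
    exact ((hm _).1 z.2).zpow_left i

/-- Commutation is transitive on non-trivial elements. -/
theorem comm_trans {a b c : G} (hb : b ≠ 1) (h1 : Commute a b) (h2 : Commute b c) :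
    Commute a c := by
  obtain ⟨r, hr⟩ := cent_cyc hb
  obtain ⟨i, rfl⟩ := (hr a).1 h1
  obtain ⟨j, rfl⟩ := (hr c).1 h2.symm
  exact Commute.zpow_zpow_self r i j

theorem comm_of_zpow {a b : G} {n : ℤ} (hn : n ≠ 0) (h : Commute (a ^ n) b) : Commute a b := by
  have h3 : (b * a * b⁻¹) ^ n = a ^ n := by
    rw [conj_zpow, ← h.eq, mul_inv_cancel_right]
  exact (mul_inv_eq_iff_eq_mul.1 (zpow_left_injective hn h3)).symm

theorem comm_of_pow {a b : G} {n : ℕ} (hn : n ≠ 0) (h : Commute (a ^ n) b) : Commute a b :=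
  comm_of_zpow (n := n) (by exact_mod_cast hn) (by rwa [zpow_natCast])

theorem comm_zpow_iff {a b : G} {m n : ℤ} (hm : m ≠ 0) (hn : n ≠ 0) :
    Commute (a ^ m) (b ^ n) ↔ Commute a b :=
  ⟨fun h => (comm_of_zpow hn (comm_of_zpow hm h).symm).symm, fun h => h.zpow_zpow m n⟩

theorem comm_pow_iff {a b : G} {m n : ℕ} (hm : m ≠ 0) (hn : n ≠ 0) :
    Commute (a ^ m) (b ^ n) ↔ Commute a b :=
  ⟨fun h => (comm_of_pow hn (comm_of_pow hm h).symm).symm, fun h => h.pow_pow m n⟩

theorem zpow_inj {a : G} (ha : a ≠ 1) {i j : ℤ} (h : a ^ i = a ^ j) : i = j := by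
  have : a ^ (i - j) = 1 := by rw [zpow_sub, h, mul_inv_cancel]
  exact sub_eq_zero.1 ((IsMulTorsionFree.zpow_eq_one_iff_right ha).1 this)

theorem zpow_ne_one {a : G} (ha : a ≠ 1) {i : ℤ} (hi : i ≠ 0) : a ^ i ≠ 1 :=
  fun h => hi ((IsMulTorsionFree.zpow_eq_one_iff_right ha).1 h)

theorem pow_ne_one {a : G} (ha : a ≠ 1) {i : ℕ} (hi : i ≠ 0) : a ^ i ≠ 1 := by
  rw [← zpow_natCast]; exact zpow_ne_one ha (by exact_mod_cast hi)

/-- Every non-trivial element is a power of a generator of a maximal cyclic subgroup. -/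
theorem ex_maxCyc {b : G} (hb : b ≠ 1) : ∃ r : G, MaxCyc r ∧ (∃ s : ℤ, s ≠ 0 ∧ b = r ^ s) ∧
    ∀ x, Commute x b ↔ x ∈ zpowers r := by
  obtain ⟨r, hr⟩ := cent_cyc hb
  obtain ⟨s, hs⟩ := (hr b).1 rfl
  have hs' : b = r ^ s := hs.symm
  refine ⟨r, ⟨?_, fun x hx => (hr x).1 ?_⟩, ⟨s, ?_, hs'⟩, hr⟩
  · rintro rfl
    exact hb (by simpa using hs')
  · rw [hs']; exact hx.zpow_right s
  · rintro rfl
    exact hb (by simpa using hs')

omit [IsFreeGroup G] in
theorem MaxCyc.comm_iff {c x : G} (h : MaxCyc c) : Commute x c ↔ x ∈ zpowers c :=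
  ⟨h.2 x, by rintro ⟨i, rfl⟩; exact (Commute.refl c).zpow_left i⟩

omit [IsFreeGroup G] in
theorem MaxCyc.map {G' : Type} [Group G'] {c : G} (h : MaxCyc c) (e : G ≃* G') :
    MaxCyc (e c) := by
  refine ⟨fun k => h.1 (by simpa using k), fun x hx => ?_⟩
  obtain ⟨i, hi⟩ := h.2 (e.symm x) (by simpa using hx.map e.symm)
  exact ⟨i, by simpa using congrArg e hi⟩

omit [IsFreeGroup G] in
theorem MaxCyc.conj {c : G} (h : MaxCyc c) (g : G) : MaxCyc (g * c * g⁻¹) :=
  h.map (MulAut.conj g)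

omit [IsFreeGroup G] in
theorem MaxCyc.inv {c : G} (h : MaxCyc c) : MaxCyc c⁻¹ :=
  ⟨inv_ne_one.2 h.1, fun x hx => by rw [zpowers_inv]; exact h.2 x (Commute.inv_right_iff.1 hx)⟩

/-- Roots stay in a maximal cyclic subgroup. -/
theorem MaxCyc.root {c x : G} (h : MaxCyc c) {n : ℤ} (hn : n ≠ 0) (hx : x ^ n ∈ zpowers c) :
    x ∈ zpowers c := h.2 x (comm_of_zpow hn (h.comm_iff.2 hx))

/-- An element commuting with a non-trivial element of a maximal cyclic subgroup lies in it. -/
theorem MaxCyc.mem_of_comm {c x y : G} (h : MaxCyc c) (hy : y ∈ zpowers c) (h1 : y ≠ 1)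
    (hx : Commute x y) : x ∈ zpowers c := h.2 x (comm_trans h1 hx (h.comm_iff.2 hy))

/-- Commuting generators of maximal cyclic subgroups agree up to inversion. -/
theorem MaxCyc.eq_or {c d : G} (h : MaxCyc c) (k : MaxCyc d) (hc : Commute c d) :
    d = c ∨ d = c⁻¹ := by
  obtain ⟨i, hi⟩ := h.2 d hc.symm
  obtain ⟨j, hj⟩ := k.2 c hc
  have hi' : c ^ i = d := hi
  have hj' : d ^ j = c := hj
  have : i * j = 1 := zpow_inj h.1 (by rw [zpow_mul, hi', hj', zpow_one])
  rcases Int.eq_one_or_neg_one_of_mul_eq_one this with rfl | rfl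
  · left; simpa using hi'.symm
  · right; simpa using hi'.symm

theorem MaxCyc.zpowers_eq {c d : G} (h : MaxCyc c) (k : MaxCyc d) (hc : Commute c d) :
    zpowers d = zpowers c := by
  rcases h.eq_or k hc with rfl | rfl
  · rfl
  · exact zpowers_inv

/-- No non-trivial element is conjugate to its inverse. -/
theorem conj_ne_inv {c : G} (hc : c ≠ 1) (g : G) : g * c * g⁻¹ ≠ c⁻¹ := by
  intro h
  have h2 : Commute (g ^ 2) c := by
    have : g * (g * c * g⁻¹) * g⁻¹ = c := by
      rw [h, ← conj_inv, h, inv_inv]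
    rw [Commute, SemiconjBy, ← mul_inv_eq_iff_eq_mul, pow_two]
    conv_rhs => rw [← this]
    simp only [mul_inv_rev, mul_assoc]
  have h3 := comm_of_pow two_ne_zero h2
  rw [h3.eq, mul_inv_cancel_right] at h
  exact pow_ne_one hc two_ne_zero (by rw [pow_two]; nth_rw 1 [h]; exact inv_mul_cancel c)

/-- Malnormality: an element commuting with a conjugate of itself. -/
theorem comm_of_conj {c g : G} (hc : c ≠ 1) (h : Commute c (g * c * g⁻¹)) : Commute g c := by
  obtain ⟨r, hr, ⟨s, hs, rfl⟩, -⟩ := ex_maxCyc hc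
  rw [← conj_zpow, comm_zpow_iff hs hs] at h
  rcases hr.eq_or (hr.conj g) h with k | k
  · exact Commute.zpow_right (mul_inv_eq_iff_eq_mul.1 k) s
  · exact absurd k (conj_ne_inv hr.1 g)

/-- Malnormality for two commuting elements. -/
theorem comm_of_conj' {a b g : G} (ha : a ≠ 1) (hb : b ≠ 1) (hab : Commute a b)
    (h : Commute a (g * b * g⁻¹)) : Commute g a :=
  (comm_trans hb hab (comm_of_conj hb (comm_trans ha hab.symm h)).symm).symm

/-- Maximal cyclic subgroups are malnormal. -/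
theorem MaxCyc.malnormal {c g x : G} (h : MaxCyc c) (hx : x ∈ zpowers c) (h1 : x ≠ 1)
    (hg : g * x * g⁻¹ ∈ zpowers c) : g ∈ zpowers c :=
  h.2 g (comm_of_conj' h.1 h1 (h.comm_iff.2 hx).symm (h.comm_iff.2 hg).symm)

/-- Conjugate powers of one element have the same exponent. -/
theorem conj_zpow_eq {c g : G} (hc : c ≠ 1) {i j : ℤ} (hi : i ≠ 0)
    (h : g * c ^ i * g⁻¹ = c ^ j) : i = j ∧ Commute g c := by
  have h1 : Commute g c := comm_of_conj' hc (zpow_ne_one hc hi) ((Commute.refl c).zpow_right i)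
    (h ▸ (Commute.refl c).zpow_right j)
  rw [(h1.zpow_right i).eq, mul_inv_cancel_right] at h
  exact ⟨zpow_inj hc h, h1⟩

/-- An element commuting with two non-commuting elements is trivial. -/
theorem eq_one_of_comm {a b g : G} (h : ¬ Commute a b) (h1 : Commute g a) (h2 : Commute g b) :
    g = 1 := by
  by_contra k
  exact h (comm_trans k h1.symm h2)

theorem NonAb.eq_one {A : Type} [Group A] {ψ : A →* G} (h : NonAb ψ) {g : G}
    (hg : ∀ x, Commute g (ψ x)) : g = 1 := by
  obtain ⟨x, y, k⟩ := h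
  exact eq_one_of_comm k (hg x) (hg y)

/-- An abelian subgroup is cyclic. -/
theorem cyclic_of_comm (H : Subgroup G) (h : ∀ x ∈ H, ∀ y ∈ H, Commute x y) :
    ∃ c : G, H = zpowers c := by
  by_cases h0 : H = ⊥
  · exact ⟨1, by simp [h0]⟩
  obtain ⟨b, hb⟩ := (ne_bot_iff_exists_ne_one).1 h0
  have hc : IsCyclic H := cyclic_of_central hb fun x => Subtype.ext (h _ x.2 _ b.2)
  obtain ⟨z, hz⟩ := hc.exists_zpow_surjective
  refine ⟨z, le_antisymm (fun x hx => ?_) (zpowers_le.2 z.2)⟩
  obtain ⟨i, hi⟩ := hz ⟨x, hx⟩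
  exact ⟨i, by simpa using congrArg Subtype.val hi⟩

/-- The commutator of two non-commuting elements does not commute with them. -/
theorem not_comm_commutator {a b : G} (h : ¬ Commute a b) :
    ¬ Commute a (a * b * a⁻¹ * b⁻¹) := by
  intro k
  have ha : a ≠ 1 := by rintro rfl; exact h (Commute.one_left b)
  have h2 : Commute a (b * a⁻¹ * b⁻¹) := by
    have := (Commute.refl a).inv_right.mul_right k
    rwa [show a⁻¹ * (a * b * a⁻¹ * b⁻¹) = b * a⁻¹ * b⁻¹ by group] at this
  exact h (comm_of_conj' ha (inv_ne_one.2 ha) (Commute.refl a).inv_right h2).symm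

/-- Homomorphisms that agree on powers agree. -/
theorem hom_eq_of_pow {A : Type} [Group A] {ψ ψ' : A →* G}
    (h : ∀ x, ∃ n : ℕ, n ≠ 0 ∧ ψ (x ^ n) = ψ' (x ^ n)) : ψ = ψ' := by
  ext x
  obtain ⟨n, hn, k⟩ := h x
  rw [map_pow, map_pow] at k
  exact pow_left_injective hn k

/-- Homomorphisms that agree on a subgroup of finite index agree. -/
theorem hom_eq_of_finiteIndex {A : Type} [Group A] {ψ ψ' : A →* G} (D : Subgroup A)
    [D.FiniteIndex] (h : ∀ x ∈ D, ψ x = ψ' x) : ψ = ψ' := by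
  refine hom_eq_of_pow fun x => ?_
  obtain ⟨n, hn, -, k⟩ := D.exists_pow_mem_of_index_ne_zero FiniteIndex.index_ne_zero x
  exact ⟨n, hn.ne', h _ k⟩

/-- A non-abelian image stays non-abelian on a subgroup of finite index. -/
theorem NonAb.finiteIndex {A : Type} [Group A] {ψ : A →* G} (h : NonAb ψ) (D : Subgroup A)
    [D.FiniteIndex] : NonAb (ψ.comp D.subtype) := by
  obtain ⟨x, y, k⟩ := h
  obtain ⟨n, hn, -, kx⟩ := D.exists_pow_mem_of_index_ne_zero FiniteIndex.index_ne_zero x
  obtain ⟨m, hm, -, ky⟩ := D.exists_pow_mem_of_index_ne_zero FiniteIndex.index_ne_zero y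
  refine ⟨⟨_, kx⟩, ⟨_, ky⟩, ?_⟩
  simpa [comm_pow_iff hn.ne' hm.ne'] using k

/-- A non-abelian image stays non-abelian on a normal subgroup with non-trivial image. -/
theorem NonAb.normal {A : Type} [Group A] {ψ : A →* G} (h : NonAb ψ) (D : Subgroup A)
    [hD : D.Normal] (h1 : ∃ x ∈ D, ψ x ≠ 1) : NonAb (ψ.comp D.subtype) := by
  obtain ⟨x, hx, h1⟩ := h1
  by_contra k
  simp only [NonAb, not_exists, not_not] at k
  refine h1 (h.eq_one fun y => (comm_of_conj h1 ?_).symm)
  simpa using k ⟨x, hx⟩ ⟨_, hD.conj_mem x hx y⟩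

/-- A non-abelian image stays non-abelian on the commutator subgroup. -/
theorem NonAb.commutator {A : Type} [Group A] {ψ : A →* G} (h : NonAb ψ) :
    NonAb (ψ.comp (commutator A).subtype) := by
  refine h.normal _ ?_
  obtain ⟨x, y, k⟩ := h
  refine ⟨x * y * x⁻¹ * y⁻¹, commutator_mem_commutator (mem_top x) (mem_top y), fun e => k ?_⟩
  simp only [map_mul, map_inv] at e
  rw [mul_inv_eq_one, mul_inv_eq_iff_eq_mul] at e
  exact e

end Pool.Agent.MP_3ce0a0_al.Q2T4A
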