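import Pool.Agent.MP_3ce0a0_al.Q2T4A.Len

/-! The big powers property of free groups. -/

set_option autoImplicit false

namespace Pool.Agent.MP_3ce0a0_al.Q2T4A

open FreeGroup Filter

/-- The product of the `c ^ j * a` over a list of triples `(c, j, a)`. -/
def bw {G : Type} [Group G] (L : List (G × ℤ × G)) : G := (L.map fun p => p.1 ^ p.2.1 * p.2.2).prod

/-- Consecutive triples are independent. -/
def Ind {G ι : Type} [Group G] (p q : G × ι × G) : Prop :=
  ¬ Commute p.1 (p.2.2 * q.1 * p.2.2⁻¹)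

section Norm

variable {α : Type} [DecidableEq α]

theorem norm_conj_le (g x : FreeGroup α) : (g * x * g⁻¹).norm ≤ 2 * g.norm + x.norm := by
  have h1 := norm_mul_le (g * x) g⁻¹
  have h2 := norm_mul_le g x
  rw [norm_inv_eq] at h1
  omega

theorem norm_pow_le' (x : FreeGroup α) (n : ℕ) : (x ^ n).norm ≤ n * x.norm := by
  induction n with
  | zero => simp
  | succ n ih =>
    have := norm_mul_le (x ^ n) x
    rw [pow_succ, add_mul]
    omega

/-- Quantitative form. -/
theorem bp_norm (M : ℕ) (L : List (FreeGroup α × ℤ × FreeGroup α))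
    (hM : ∀ p ∈ L, p.1 ≠ 1 ∧ p.1.norm ≤ M ∧ p.2.2.norm ≤ M ∧ 13 * M < p.2.1.natAbs)
    (hc : L.IsChain Ind) :
    (L.map fun p => p.2.1.natAbs).sum ≤ (bw L).norm + 13 * M * L.length := by
  have h1 : ∀ p ∈ L, p.2.1.natAbs ≤ (p.1 ^ p.2.1 * p.2.2).norm + M := fun p hp => by
    obtain ⟨a, -, b, -⟩ := hM p hp
    have k1 := le_norm_zpow a p.2.1
    have k2 := norm_mul_le (p.1 ^ p.2.1 * p.2.2) p.2.2⁻¹
    rw [mul_inv_cancel_right, norm_inv_eq] at k2
    omega
  have h2 : (L.map fun p => p.2.1.natAbs).sum ≤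
      ((L.map fun p => p.1 ^ p.2.1 * p.2.2).map FreeGroup.norm).sum + M * L.length := by
    clear hc hM
    induction L with
    | nil => simp
    | cons p L ih =>
      have k1 := h1 p (by simp)
      have k2 := ih fun q hq => h1 q (List.mem_cons_of_mem _ hq)
      simp only [List.map_cons, List.sum_cons, List.length_cons, mul_add] at k2 ⊢
      omega
  cases L with
  | nil => simp
  | cons p L =>
    have h3 := (chain (6 * M) (p.1 ^ p.2.1 * p.2.2) (L.map fun p => p.1 ^ p.2.1 * p.2.2)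
      (fun y hy => ?_) ?_).2
    · simp only [List.length_map] at h3
      simp only [bw, List.map_cons, List.length_cons] at h2 h3 ⊢
      nlinarith
    · rw [← List.map_cons (f := fun p : FreeGroup α × ℤ × FreeGroup α => p.1 ^ p.2.1 * p.2.2)] at hy
      obtain ⟨q, hq, rfl⟩ := List.mem_map.1 hy
      have := h1 q hq
      have := (hM q hq).2.2.2
      omega
    · rw [← List.map_cons (f := fun p : FreeGroup α × ℤ × FreeGroup α => p.1 ^ p.2.1 * p.2.2),
        List.isChain_map]
      refine hc.imp_of_mem_imp fun a b ha hb k => ?_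
      obtain ⟨-, a1, a2, -⟩ := hM a ha
      obtain ⟨-, b1, b2, -⟩ := hM b hb
      have k1 : ¬ Commute (a.2.2⁻¹ * a.1 * a.2.2⁻¹⁻¹) b.1 := fun e => k (by
        simpa [mul_assoc] using e.map (MulAut.conj a.2.2))
      have k2 := overlap k1 (-a.2.1) b.2.1
      have k3 := norm_conj_le a.2.2⁻¹ a.1
      have k4 := gp_mul_left ((a.2.2⁻¹ * a.1 * a.2.2⁻¹⁻¹) ^ (-a.2.1)) (b.1 ^ b.2.1 * b.2.2) a.2.2⁻¹
      have k5 := gp_mul_right ((a.2.2⁻¹ * a.1 * a.2.2⁻¹⁻¹) ^ (-a.2.1)) (b.1 ^ b.2.1) b.2.2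
      rw [norm_inv_eq] at k3 k4
      rw [show (a.1 ^ a.2.1 * a.2.2)⁻¹ = (a.2.2⁻¹ * a.1 * a.2.2⁻¹⁻¹) ^ (-a.2.1) * a.2.2⁻¹ by
        rw [conj_zpow]; group]
      omega

theorem chain_rep {β : Type} {R : β → β → Prop} {L : List β} (h : (L ++ L).IsChain R) :
    ∀ n, (List.replicate n L).flatten.IsChain R
  | 0 => by simp
  | 1 => by simpa using h.left_of_append
  | n + 2 => by
    rcases eq_or_ne L [] with rfl | k
    · simp
    · have := chain_rep h (n + 1)
      rw [List.replicate_succ, List.flatten_cons] at this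
      rw [List.replicate_succ, List.replicate_succ, List.flatten_cons, List.flatten_cons,
        ← List.append_assoc]
      exact h.append_overlap this k

/-- Quantitative form for conjugacy classes. -/
theorem bp_conj (M : ℕ) (L : List (FreeGroup α × ℤ × FreeGroup α))
    (hM : ∀ p ∈ L, p.1 ≠ 1 ∧ p.1.norm ≤ M ∧ p.2.2.norm ≤ M ∧ 13 * M < p.2.1.natAbs)
    (hc : (L ++ L).IsChain Ind) (g : FreeGroup α) :
    (L.map fun p => p.2.1.natAbs).sum ≤ (g * bw L * g⁻¹).norm + 13 * M * L.length := by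
  have key : ∀ n : ℕ, n * (L.map fun p => p.2.1.natAbs).sum ≤
      2 * g.norm + n * (g * bw L * g⁻¹).norm + 13 * M * (n * L.length) := fun n => by
    have h1 := bp_norm M (List.replicate n L).flatten (fun p hp => by
      obtain ⟨l, hl, k⟩ := List.mem_flatten.1 hp
      exact hM p (List.eq_of_mem_replicate hl ▸ k)) (chain_rep hc n)
    have e1 : bw (List.replicate n L).flatten = g⁻¹ * (g * bw L * g⁻¹) ^ n * g⁻¹⁻¹ := by
      rw [conj_pow]
      simp [bw, List.prod_flatten, mul_assoc]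
    have h2 := norm_conj_le g⁻¹ ((g * bw L * g⁻¹) ^ n)
    have h3 := norm_pow_le' (g * bw L * g⁻¹) n
    rw [← e1, norm_inv_eq] at h2
    have e2 : ((List.replicate n L).flatten.map fun p => p.2.1.natAbs).sum =
        n * (L.map fun p => p.2.1.natAbs).sum := by
      simp [List.sum_flatten]
    have e3 : (List.replicate n L).flatten.length = n * L.length := by simp
    rw [e2, e3] at h1
    omega
  by_contra k
  have := key (2 * g.norm + 1)
  rw [not_le, ← Nat.succ_le_iff] at k
  nlinarith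

/-- The conjugacy length of `u c^p u' c^(-p)` grows linearly. -/
theorem conj_len {u u' c : FreeGroup α} (hu : ¬ Commute u c) (hu' : ¬ Commute u' c) :
    ∃ K : ℕ, ∀ (p : ℤ) (g : FreeGroup α),
      2 * p.natAbs ≤ (g * (u * c ^ p * u' * c ^ (-p)) * g⁻¹).norm + K := by
  have hc : c ≠ 1 := by rintro rfl; exact hu (Commute.one_right u)
  refine ⟨26 * (u.norm + u'.norm + c.norm), fun p g => ?_⟩
  by_cases hp : 13 * (u.norm + u'.norm + c.norm) < p.natAbs
  · have k1 : ¬ Commute c (u * c * u⁻¹) := fun e => hu (comm_of_conj hc e)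
    have k2 : ¬ Commute c (u' * c * u'⁻¹) := fun e => hu' (comm_of_conj hc e)
    have := bp_conj (u.norm + u'.norm + c.norm) [(c, p, u'), (c, -p, u)] (by
      simp only [List.forall_mem_cons, Int.natAbs_neg]
      refine ⟨⟨hc, ?_, ?_, hp⟩, ⟨hc, ?_, ?_, hp⟩, by simp⟩ <;> omega)
      (by simp [Ind, k1, k2]) (g * u)
    rw [show g * u * bw [(c, p, u'), (c, -p, u)] * (g * u)⁻¹ =
      g * (u * c ^ p * u' * c ^ (-p)) * g⁻¹ by simp [bw, mul_assoc]] at this
    simp only [List.map_cons, List.sum_cons, List.map_nil, List.sum_nil, Int.natAbs_neg,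
      List.length_cons, List.length_nil] at this
    omega
  · omega

/-- The length tends to infinity. -/
theorem bp_tendsto {ι : Type} {l : Filter ι} (L : List (FreeGroup α × (ι → ℤ) × FreeGroup α))
    (hL : L ≠ []) (h1 : ∀ p ∈ L, p.1 ≠ 1 ∧ Tendsto (fun n => (p.2.1 n).natAbs) l atTop)
    (hc : L.IsChain Ind) :
    Tendsto (fun n => (L.map fun p : FreeGroup α × (ι → ℤ) × FreeGroup α =>
      p.1 ^ p.2.1 n * p.2.2).prod.norm) l atTop := by
  obtain ⟨M, hM⟩ : ∃ M, ∀ p ∈ L, p.1.norm ≤ M ∧ p.2.2.norm ≤ M :=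
    ⟨(L.map fun p => p.1.norm + p.2.2.norm).sum, fun p hp => by
      have := List.single_le_sum (l := L.map fun p => p.1.norm + p.2.2.norm)
        (fun _ _ => Nat.zero_le _) _ (List.mem_map_of_mem hp)
      omega⟩
  rw [tendsto_atTop]
  intro b
  have h2 : ∀ᶠ n in l, ∀ p ∈ {p | p ∈ L}, 13 * M * L.length + 13 * M + b + 1 ≤ (p.2.1 n).natAbs :=
    (eventually_all_finite L.finite_toSet).2 fun p hp => tendsto_atTop.1 (h1 p hp).2 _
  filter_upwards [h2] with n hn
  have h3 := bp_norm M (L.map fun p => (p.1, p.2.1 n, p.2.2)) (fun q hq => by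
    obtain ⟨p, hp, rfl⟩ := List.mem_map.1 hq
    have := hn p hp
    exact ⟨(h1 p hp).1, (hM p hp).1, (hM p hp).2, by dsimp only; omega⟩)
    (by rw [List.isChain_map]; exact hc)
  obtain ⟨p, hp⟩ := List.exists_mem_of_ne_nil L hL
  have h4 := List.single_le_sum (l := (L.map fun p => (p.1, p.2.1 n, p.2.2)).map
    fun p => p.2.1.natAbs) (fun _ _ => Nat.zero_le _) _
    (List.mem_map_of_mem (List.mem_map_of_mem hp))
  have h5 := hn p hp
  rw [List.length_map, bw, List.map_map, List.map_map] at h3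
  rw [List.map_map] at h4
  dsimp only at h4
  have : (L.map fun p => p.1 ^ p.2.1 n * p.2.2) = L.map ((fun p => p.1 ^ p.2.1 * p.2.2) ∘
    fun p => (p.1, p.2.1 n, p.2.2)) := rfl
  rw [this]
  omega

end Norm

variable {G : Type} [Group G] [IsFreeGroup G]

/-- Baumslag's lemma. -/
theorem bp {ι : Type} {l : Filter ι} (L : List (G × (ι → ℤ) × G)) (hL : L ≠ [])
    (h1 : ∀ p ∈ L, p.1 ≠ 1 ∧ Tendsto (fun n => (p.2.1 n).natAbs) l atTop) (hc : L.IsChain Ind)
    (a : G) : ∀ᶠ n in l, (L.map fun p => p.1 ^ p.2.1 n * p.2.2).prod ≠ a := by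
  classical
  let e := IsFreeGroup.toFreeGroup G
  have := bp_tendsto (l := l) (L.map fun p => (e p.1, p.2.1, e p.2.2)) (by simpa using hL)
    (fun q hq => by
      obtain ⟨p, hp, rfl⟩ := List.mem_map.1 hq
      exact ⟨by simpa using (h1 p hp).1, (h1 p hp).2⟩)
    (by
      rw [List.isChain_map]
      exact hc.imp fun p q k k' => k (by simpa using k'.map e.symm))
  filter_upwards [tendsto_atTop.1 this ((e a).norm + 1)] with n hn k
  rw [← k, map_list_prod, List.map_map] at hn
  simp [Function.comp_def] at hn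

end Pool.Agent.MP_3ce0a0_al.Q2T4A
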