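import Pool.Agent.MP_3ce0a0_al.Q2T4A.BP

/-! Identities between homomorphisms into a free group. -/

set_option autoImplicit false

namespace Pool.Agent.MP_3ce0a0_al.Q2T4A

open Filter

variable {G : Type} [Group G] [IsFreeGroup G]

theorem tend {s : ℤ} (hs : s ≠ 0) : Tendsto (fun n : ℕ => (s * n).natAbs) atTop atTop := by
  refine tendsto_atTop_mono (fun n => ?_) tendsto_id
  rw [Int.natAbs_mul, Int.natAbs_natCast]
  exact Nat.le_mul_of_pos_left _ (Int.natAbs_pos.2 hs)

/-- `a^j b a^j`. -/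
def sw {G : Type} [Group G] (a b : G) (j : ℕ) : G := a ^ j * b * a ^ j

theorem two_of_freq {P : ℕ → Prop} (h : ∃ᶠ j in atTop, P j) : ∃ i j, i < j ∧ P i ∧ P j := by
  obtain ⟨i, hi⟩ := h.exists
  obtain ⟨j, h1, h2⟩ := frequently_atTop.1 h (i + 1)
  exact ⟨i, j, h1, hi, h2⟩

theorem sw_ne {a : G} (ha : a ≠ 1) (b : G) : ∀ᶠ j in atTop, sw a b j ≠ 1 := by
  have := bp (l := atTop) [(a, fun n : ℕ => 2 * n, 1)] (by simp)
    (by simpa using ⟨ha, by simpa using tend two_ne_zero⟩) (by simp) b⁻¹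
  filter_upwards [this] with j hj k
  apply hj
  have : a ^ j * b * a ^ j = 1 := k
  simp only [List.map_cons, List.map_nil, List.prod_cons, List.prod_nil, mul_one]
  rw [two_mul, zpow_add, zpow_natCast]
  calc a ^ j * a ^ j = a ^ j * (a ^ j * b * a ^ j) * (a ^ j)⁻¹ * b⁻¹ := by group
    _ = _ := by rw [this]; group

omit [IsFreeGroup G] in
theorem sw_comm {a b c : G} (j : ℕ) (h : Commute a c) : Commute (sw a b j) c ↔ Commute b c := by
  refine ⟨fun k => ?_, fun k => ((h.pow_left j).mul_left k).mul_left (h.pow_left j)⟩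
  have := ((h.pow_left j).inv_left.mul_left k).mul_left (h.pow_left j).inv_left
  simpa [sw, mul_assoc] using this

omit [IsFreeGroup G] in
theorem comm_iff_word (x y : G) : Commute x y ↔ x * y * x⁻¹ * y⁻¹ = 1 := by
  rw [mul_inv_eq_one, mul_inv_eq_iff_eq_mul]; rfl

theorem core_eq {a b b' : G} (h : ∃ᶠ j in atTop, Commute (sw a b j) (sw a b' j)) :
    (a ≠ 1 → Commute (b'⁻¹ * b) a) ∧ Commute b b' := by
  obtain ⟨i, j, hij, hi, hj⟩ := two_of_freq h
  have e : ∀ n, Commute (sw a b n) (sw a b' n) →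
      b * b'⁻¹ = (a ^ (2 * n))⁻¹ * (b'⁻¹ * b) * a ^ (2 * n) := fun n hn => by
    have h1 : b * a ^ (2 * n) * b' = b' * a ^ (2 * n) * b := by
      have := hn.eq
      simp only [sw, mul_assoc, mul_right_inj] at this
      simp only [← mul_assoc, mul_left_inj] at this
      simpa only [two_mul, pow_add, ← mul_assoc] using this
    calc b * b'⁻¹ = (a ^ (2 * n))⁻¹ * b'⁻¹ * (b' * a ^ (2 * n) * b) * b'⁻¹ := by group
      _ = _ := by rw [← h1]; group
  obtain ⟨d, rfl⟩ := Nat.exists_eq_add_of_lt hij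
  have h2 : Commute (b'⁻¹ * b) a := by
    refine (comm_of_pow (n := 2 * (d + 1)) (by omega) ?_).symm
    have h3 := (e _ hi).symm.trans (e _ hj)
    generalize b'⁻¹ * b = g at h3
    rw [Commute, SemiconjBy]
    calc a ^ (2 * (d + 1)) * g = a ^ (2 * (i + d + 1)) * ((a ^ (2 * i))⁻¹ * g * a ^ (2 * i)) *
          (a ^ (2 * i))⁻¹ := by group
      _ = _ := by rw [h3]; group
  refine ⟨fun _ => h2, ?_⟩
  have h4 := e _ hi
  rw [mul_assoc, (h2.pow_right _).eq, inv_mul_cancel_left] at h4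
  exact Commute.inv_right_iff.1 h4

theorem core_neg {a b b' : G} (h : ∃ᶠ j in atTop, Commute (sw a b j) (sw a⁻¹ b' j)) :
    Commute (b * b') a ∧ Commute b b' := by
  obtain ⟨i, j, hij, hi, hj⟩ := two_of_freq h
  have e : ∀ n, Commute (sw a b n) (sw a⁻¹ b' n) →
      b' * b = a ^ (2 * n) * (b * b') * (a ^ (2 * n))⁻¹ := fun n hn => by
    have h1 := hn.eq
    simp only [sw] at h1
    calc b' * b = a ^ n * (a⁻¹ ^ n * b' * a⁻¹ ^ n * (a ^ n * b * a ^ n)) * (a ^ n)⁻¹ := by group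
      _ = _ := by rw [← h1]; group
  obtain ⟨d, rfl⟩ := Nat.exists_eq_add_of_lt hij
  have h2 : Commute (b * b') a := by
    refine (comm_of_pow (n := 2 * (d + 1)) (by omega) ?_).symm
    have h3 := (e _ hi).symm.trans (e _ hj)
    generalize b * b' = g at h3
    rw [Commute, SemiconjBy]
    calc a ^ (2 * (d + 1)) * g = (a ^ (2 * i))⁻¹ *
          (a ^ (2 * (i + d + 1)) * g * (a ^ (2 * (i + d + 1)))⁻¹) * a ^ (2 * (i + d + 1)) := by group
      _ = _ := by rw [← h3]; group
  refine ⟨h2, ?_⟩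
  have h4 := e _ hi
  rw [← (h2.pow_right _).eq, mul_inv_cancel_right] at h4
  exact h4.symm

theorem core_gen {c b b' : G} (hc : c ≠ 1) (hb : ¬ Commute b c) (hb' : ¬ Commute b' c) {s t : ℤ}
    (h1 : s ≠ t) (h2 : s ≠ -t) :
    ∀ᶠ j in atTop, ¬ Commute (sw (c ^ s) b j) (sw (c ^ t) b' j) := by
  have k : ∀ g, ¬ Commute g c → ¬ Commute c (g * c * g⁻¹) := fun g hg e => hg (comm_of_conj hc e)
  have k1 := k b hb
  have k2 := k b' hb'
  have k3 := k b⁻¹ (by simpa using hb)
  have := bp (l := atTop) [(c, fun n : ℕ => (s - t) * n, b), (c, fun n : ℕ => (s + t) * n, b'),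
    (c, fun n : ℕ => (t - s) * n, b⁻¹), (c, fun n : ℕ => (-s - t) * n, b'⁻¹)] (by simp)
    (by
      simp only [List.forall_mem_cons]
      exact ⟨⟨hc, tend (by omega)⟩, ⟨hc, tend (by omega)⟩, ⟨hc, tend (by omega)⟩,
        ⟨hc, tend (by omega)⟩, by simp⟩)
    (by simp only [List.isChain_cons_cons, Ind]; exact ⟨k1, k2, k3, by simp⟩) 1
  filter_upwards [this] with j hj e
  apply hj
  have h3 := e.eq
  simp only [sw, ← zpow_natCast, ← zpow_mul] at h3
  simp only [List.map_cons, List.map_nil, List.prod_cons, List.prod_nil, mul_one]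
  calc _ = (c ^ (t * j))⁻¹ * (c ^ (s * j) * b * c ^ (s * j) * (c ^ (t * j) * b' * c ^ (t * j))) *
        (c ^ (s * j))⁻¹ * b⁻¹ * (c ^ (s * j))⁻¹ * (c ^ (t * j))⁻¹ * b'⁻¹ := by group
    _ = 1 := by rw [h3]; group

theorem comb_half {a a' b b' : G} (h : ¬ Commute a a') (hb : Commute b a) :
    ∀ᶠ j in atTop, ¬ Commute (sw a b j) (sw a' b' j) := by
  have ha : a ≠ 1 := by rintro rfl; exact h (Commute.one_left _)
  have ha' : a' ≠ 1 := by rintro rfl; exact h (Commute.one_right _)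
  have h1 : ∀ᶠ j in atTop, ¬ Commute a (sw a' b' j) := by
    by_cases hb' : Commute b' a'
    · filter_upwards [sw_ne ha' b'] with j hj e
      exact h (comm_trans hj e ((sw_comm j (Commute.refl a')).2 hb'))
    · have k : ∀ g, ¬ Commute g a' → ¬ Commute a' (g * a' * g⁻¹) :=
        fun g hg e => hg (comm_of_conj ha' e)
      have := bp (l := atTop) [(a', fun n : ℕ => 1 * n, b'), (a', fun n : ℕ => 1 * n, a),
        (a', fun n : ℕ => (-1) * n, b'⁻¹), (a', fun n : ℕ => (-1) * n, a⁻¹)] (by simp)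
        (by
          simp only [List.forall_mem_cons]
          exact ⟨⟨ha', tend (by omega)⟩, ⟨ha', tend (by omega)⟩, ⟨ha', tend (by omega)⟩,
            ⟨ha', tend (by omega)⟩, by simp⟩)
        (by
          simp only [List.isChain_cons_cons, Ind]
          exact ⟨k _ hb', k _ h, k _ (by simpa using hb'), by simp⟩) 1
      filter_upwards [this] with j hj e
      apply hj
      refine Eq.trans ?_ ((comm_iff_word _ _).1 e.symm)
      simp [sw, mul_assoc]
  filter_upwards [h1, sw_ne ha b] with j h2 h3 e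
  exact h2 (comm_trans h3 ((sw_comm j (Commute.refl a)).2 hb).symm e)

theorem comb_a {a a' : G} (h : ¬ Commute a a') (b b' : G) :
    ∀ᶠ j in atTop, ¬ Commute (sw a b j) (sw a' b' j) := by
  by_cases hb : Commute b a
  · exact comb_half h hb
  by_cases hb' : Commute b' a'
  · exact (comb_half (fun e => h e.symm) hb').mono fun j k e => k e.symm
  have ha : a ≠ 1 := by rintro rfl; exact h (Commute.one_left _)
  have ha' : a' ≠ 1 := by rintro rfl; exact h (Commute.one_right _)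
  have k : ∀ {c g : G}, c ≠ 1 → ¬ Commute g c → ¬ Commute c (g * c * g⁻¹) :=
    fun hc hg e => hg (comm_of_conj hc e)
  have h1 : ¬ Commute a (1 * a' * 1⁻¹) := by simpa using h
  have h2 : ¬ Commute a' (1 * a * 1⁻¹) := by simpa using fun e : Commute a' a => h e.symm
  have := bp (l := atTop) [(a, fun n : ℕ => 1 * n, b), (a, fun n : ℕ => 1 * n, 1),
    (a', fun n : ℕ => 1 * n, b'), (a', fun n : ℕ => 1 * n, 1),
    (a, fun n : ℕ => (-1) * n, b⁻¹), (a, fun n : ℕ => (-1) * n, 1),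
    (a', fun n : ℕ => (-1) * n, b'⁻¹), (a', fun n : ℕ => (-1) * n, 1)] (by simp)
    (by
      simp only [List.forall_mem_cons]
      exact ⟨⟨ha, tend (by omega)⟩, ⟨ha, tend (by omega)⟩, ⟨ha', tend (by omega)⟩,
        ⟨ha', tend (by omega)⟩, ⟨ha, tend (by omega)⟩, ⟨ha, tend (by omega)⟩,
        ⟨ha', tend (by omega)⟩, ⟨ha', tend (by omega)⟩, by simp⟩)
    (by
      simp only [List.isChain_cons_cons, Ind]
      exact ⟨k ha hb, h1, k ha' hb', h2, k ha (by simpa using hb), h1,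
        k ha' (by simpa using hb'), by simp⟩) 1
  filter_upwards [this] with j hj e
  apply hj
  refine Eq.trans ?_ ((comm_iff_word _ _).1 e)
  simp [sw, mul_assoc]

theorem comb_one {c b b' : G} (hc : c ≠ 1) (h : ¬ Commute b b') (hb : Commute b c) (s t : ℤ) :
    ∀ᶠ j in atTop, ¬ Commute (sw (c ^ s) b j) (sw (c ^ t) b' j) := by
  have h1 : ∀ᶠ j in atTop, sw (c ^ s) b j ≠ 1 := by
    rcases eq_or_ne s 0 with rfl | hs
    · refine Eventually.of_forall fun j e => h ?_
      have : b = 1 := by simpa [sw] using e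
      rw [this]; exact Commute.one_left _
    · exact sw_ne (zpow_ne_one hc hs) b
  filter_upwards [h1] with j hj e
  have h2 := (sw_comm j ((Commute.refl c).zpow_left s)).2 hb
  have h3 := (sw_comm j ((Commute.refl c).zpow_left t)).1 (comm_trans hj e.symm h2)
  exact h (comm_trans hc hb h3.symm)

/-- Two commuting elements are powers of one non-trivial element, if the group is not trivial. -/
theorem ex_common {a a' g : G} (h : Commute a a') (hg : g ≠ 1) :
    ∃ (c : G) (s t : ℤ), c ≠ 1 ∧ a = c ^ s ∧ a' = c ^ t := by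
  rcases eq_or_ne a 1 with rfl | ha
  · rcases eq_or_ne a' 1 with rfl | ha'
    · exact ⟨g, 0, 0, hg, by simp, by simp⟩
    · exact ⟨a', 0, 1, ha', by simp, by simp⟩
  · obtain ⟨r, hr, ⟨s, -, hs⟩, k⟩ := ex_maxCyc ha
    obtain ⟨t, ht⟩ := (k a').1 h.symm
    exact ⟨r, s, t, hr.1, hs, ht.symm⟩

theorem comb_b {b b' : G} (h : ¬ Commute b b') (a a' : G) :
    ∀ᶠ j in atTop, ¬ Commute (sw a b j) (sw a' b' j) := by
  by_cases ha : Commute a a'
  swap
  · exact comb_a ha b b'
  obtain ⟨c, s, t, hc, rfl, rfl⟩ := ex_common ha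
    (show b ≠ 1 by rintro rfl; exact h (Commute.one_left _))
  by_cases hb : Commute b c
  · exact comb_one hc h hb s t
  by_cases hb' : Commute b' c
  · exact (comb_one hc (fun e => h e.symm) hb' t s).mono fun j k e => k e.symm
  by_cases h1 : s = t
  · subst h1
    exact not_frequently.1 fun e => h (core_eq e).2
  by_cases h2 : s = -t
  · obtain rfl : t = -s := by omega
    rw [zpow_neg]
    exact not_frequently.1 fun e => h (core_neg e).2
  exact core_gen hc hb hb' h1 h2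

variable {A : Type} [Group A]

omit [IsFreeGroup G] in
theorem map_sw (ψ : A →* G) (x y : A) (j : ℕ) : ψ (sw x y j) = sw (ψ x) (ψ y) j := by simp [sw]

omit [IsFreeGroup G] in
theorem NonAb.ex_ne {ψ : A →* G} (h : NonAb ψ) : ∃ x, ψ x ≠ 1 := by
  obtain ⟨x, y, k⟩ := h
  exact ⟨x, fun e => k (e ▸ Commute.one_left _)⟩

/-- Two different homomorphisms with non-abelian images have non-commuting values. -/
theorem sat {ψ ψ' : A →* G} (h : NonAb ψ) (h' : NonAb ψ') (hne : ψ ≠ ψ') :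
    ∃ v, ¬ Commute (ψ v) (ψ' v) := by
  by_contra k
  simp only [not_exists, not_not] at k
  obtain ⟨x, ha, ha'⟩ : ∃ x, ψ x ≠ 1 ∧ ψ' x ≠ 1 := by
    obtain ⟨x, hx⟩ := h.ex_ne
    obtain ⟨y, hy⟩ := h'.ex_ne
    by_cases h1 : ψ' x = 1
    · by_cases h2 : ψ y = 1
      · exact ⟨x * y, by simpa [h2] using hx, by simpa [h1] using hy⟩
      · exact ⟨y, h2, hy⟩
    · exact ⟨x, hx, h1⟩
  obtain ⟨c, s, t, hc, e, e'⟩ := ex_common (k x) ha
  have ht : t ≠ 0 := by rintro rfl; exact ha' (by simpa using e')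
  have hs : s ≠ 0 := by rintro rfl; exact ha (by simpa using e)
  have kk : ∀ y j, Commute (sw (c ^ s) (ψ y) j) (sw (c ^ t) (ψ' y) j) := fun y j => by
    rw [← e, ← e', ← map_sw, ← map_sw]; exact k _
  obtain ⟨y₀, hy₀⟩ : ∃ y, ¬ Commute (ψ y) c := by
    by_contra k2
    simp only [not_exists, not_not] at k2
    exact hc (h.eq_one fun y => (k2 y).symm)
  have hb' : ∀ y, ¬ Commute (ψ y) c → ¬ Commute (ψ' y) c := fun y hy e2 => by
    obtain ⟨j, hj⟩ := (sw_ne (zpow_ne_one hc ht) (ψ' y)).exists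
    exact hy ((sw_comm j ((Commute.refl c).zpow_left s)).1
      (comm_trans hj (kk y j) ((sw_comm j ((Commute.refl c).zpow_left t)).2 e2)))
  by_cases h1 : s = t
  · subst h1
    have h3 : ∀ y, ¬ Commute (ψ y) c → ψ y = ψ' y := fun y hy => by
      have h4 := (core_eq (Frequently.of_forall (kk y))).1 (zpow_ne_one hc hs)
      have := eq_one_of_comm hy ((k y).symm.inv_left.mul_left (Commute.refl _))
        (comm_of_zpow hs h4.symm).symm
      exact (inv_mul_eq_one.1 this).symm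
    apply hne
    ext z
    by_cases hz : Commute (ψ z) c
    · have := h3 (z * y₀) fun e3 => hy₀ (by simpa using hz.inv_left.mul_left e3)
      rwa [map_mul, map_mul, h3 y₀ hy₀, mul_left_inj] at this
    · exact h3 z hz
  by_cases h2 : s = -t
  · obtain rfl : t = -s := by omega
    simp only [zpow_neg] at kk e'
    have h3 : ∀ y, ¬ Commute (ψ y) c → ψ y * ψ' y = 1 := fun y hy =>
      eq_one_of_comm hy ((Commute.refl _).mul_left (k y).symm)
        (comm_of_zpow hs (core_neg (Frequently.of_forall (kk y))).1.symm).symm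
    have h4 := h3 (y₀ * x) fun e3 => hy₀ (by
      simpa [e] using e3.mul_left ((Commute.refl c).zpow_left s).inv_left)
    rw [map_mul, map_mul, eq_inv_of_mul_eq_one_right (h3 y₀ hy₀), e, e', ← mul_assoc,
      ← comm_iff_word] at h4
    exact hy₀ (comm_of_zpow hs h4.symm).symm
  obtain ⟨j, hj⟩ := (core_gen hc hy₀ (hb' y₀ hy₀) h1 h2).exists
  exact hj (kk y₀ j)

/-- One element serves finitely many pairs. -/
theorem sat_list (P : List ((A →* G) × (A →* G)))
    (h : ∀ p ∈ P, NonAb p.1 ∧ NonAb p.2 ∧ p.1 ≠ p.2) :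
    ∃ v, ∀ p ∈ P, ¬ Commute (p.1 v) (p.2 v) := by
  induction P with
  | nil => exact ⟨1, by simp⟩
  | cons q P ih =>
    obtain ⟨y, hy⟩ := ih fun p hp => h p (List.mem_cons_of_mem _ hp)
    obtain ⟨k1, k2, k3⟩ := h q (by simp)
    obtain ⟨x, hx⟩ := sat k1 k2 k3
    have h2 : ∀ᶠ j in atTop, ∀ p ∈ {p | p ∈ P},
        ¬ Commute (sw (p.1 x) (p.1 y) j) (sw (p.2 x) (p.2 y) j) :=
      (eventually_all_finite P.finite_toSet).2 fun p hp => comb_b (hy p hp) _ _
    obtain ⟨j, h3, h4⟩ := ((comb_a hx (q.1 y) (q.2 y)).and h2).exists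
    refine ⟨sw x y j, List.forall_mem_cons.2 ⟨?_, fun p hp => ?_⟩⟩
    · simpa only [map_sw] using h3
    · simpa only [map_sw] using h4 p hp

/-- The product of the `ψ v ^ e` over a list of pairs `(ψ, e)`. -/
def pw {G : Type} [Group G] (L : List ((A →* G) × ℤ)) (v : A) : G :=
  (L.map fun p => p.1 v ^ p.2).prod

theorem pw_ne (L : List ((A →* G) × ℤ)) (hL : L ≠ []) (h : ∀ p ∈ L, NonAb p.1 ∧ p.2 ≠ 0)
    (hc : L.IsChain fun p q => p.1 ≠ q.1) : ∃ v, pw L v ≠ 1 := by
  classical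
  obtain ⟨v, hv⟩ : ∃ v, (∀ p ∈ L, p.1 v ≠ 1) ∧
      ∀ p ∈ L, ∀ q ∈ L, p.1 ≠ q.1 → ¬ Commute (p.1 v) (q.1 v) := by
    by_cases h0 : ∀ p ∈ L, ∀ q ∈ L, p.1 = q.1
    · obtain ⟨p, hp⟩ := List.exists_mem_of_ne_nil L hL
      obtain ⟨v, hv⟩ := (h p hp).1.ex_ne
      exact ⟨v, fun q hq => h0 p hp q hq ▸ hv, fun q hq r hr k => absurd (h0 q hq r hr) k⟩
    · obtain ⟨v, hv⟩ := sat_list (((L.map Prod.fst) ×ˢ (L.map Prod.fst)).filter
        fun p => p.1 ≠ p.2) fun p hp => by
          simp only [List.mem_filter, decide_eq_true_eq] at hp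
          obtain ⟨a, b⟩ := p
          obtain ⟨k1, k2⟩ := List.mem_product.1 hp.1
          obtain ⟨a', ha, rfl⟩ := List.mem_map.1 k1
          obtain ⟨b', hb, rfl⟩ := List.mem_map.1 k2
          exact ⟨(h _ ha).1, (h _ hb).1, hp.2⟩
      have k : ∀ p ∈ L, ∀ q ∈ L, p.1 ≠ q.1 → ¬ Commute (p.1 v) (q.1 v) := fun p hp q hq e =>
        hv (p.1, q.1) (by
          simp only [List.mem_filter, decide_eq_true_eq]
          exact ⟨List.mem_product.2 ⟨List.mem_map_of_mem hp, List.mem_map_of_mem hq⟩, e⟩)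
      refine ⟨v, fun p hp e => ?_, k⟩
      push Not at h0
      obtain ⟨q, hq, r, hr, k2⟩ := h0
      by_cases k3 : p.1 = q.1
      · exact k p hp r hr (k3 ▸ k2) (e ▸ Commute.one_left _)
      · exact k p hp q hq k3 (e ▸ Commute.one_left _)
  obtain ⟨j, hj⟩ := (bp (l := atTop) (L.map fun p => (p.1 v, fun n : ℕ => p.2 * n, 1))
    (by simpa using hL)
    (fun q hq => by
      obtain ⟨p, hp, rfl⟩ := List.mem_map.1 hq
      exact ⟨hv.1 p hp, tend (h p hp).2⟩)
    (by
      rw [List.isChain_map]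
      exact hc.imp_of_mem_imp fun p q hp hq k => by simpa [Ind] using hv.2 p hp q hq k) 1).exists
  refine ⟨v ^ j, fun e => hj ?_⟩
  refine Eq.trans ?_ e
  rw [pw, List.map_map]
  congr 2
  funext p
  simp only [Function.comp, mul_one, map_pow]
  rw [mul_comm, zpow_mul, zpow_natCast]

omit [IsFreeGroup G] in
theorem merge : ∀ (p : (A →* G) × ℤ) (L : List ((A →* G) × ℤ)), (∀ q ∈ p :: L, q.2 ≠ 0) →
    (p :: L).IsChain (fun p q => p.1 = q.1 → 0 < p.2 * q.2) →
      ∃ (e : ℤ) (L' : List ((A →* G) × ℤ)), 0 < p.2 * e ∧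
        (∀ q ∈ L', q.2 ≠ 0 ∧ ∃ r ∈ L, r.1 = q.1) ∧
        ((p.1, e) :: L').IsChain (fun p q => p.1 ≠ q.1) ∧
        ∀ v, pw ((p.1, e) :: L') v = pw (p :: L) v
  | p, [], h, _ => ⟨p.2, [], mul_self_pos.2 (h p (by simp)), by simp, by simp, fun _ => rfl⟩
  | p, q :: L, h, hc => by
    rw [List.isChain_cons_cons] at hc
    obtain ⟨e, L', h1, h2, h3, h4⟩ := merge q L (fun r hr => h r (List.mem_cons_of_mem _ hr)) hc.2
    have h5 : ∀ r ∈ L', r.2 ≠ 0 ∧ ∃ s ∈ q :: L, s.1 = r.1 := fun r hr =>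
      ⟨(h2 r hr).1, (h2 r hr).2.imp fun s hs => ⟨List.mem_cons_of_mem _ hs.1, hs.2⟩⟩
    have hp := mul_self_pos.2 (h p (by simp))
    by_cases k : p.1 = q.1
    · refine ⟨p.2 + e, L', ?_, h5, ?_, fun v => ?_⟩
      · have h6 := hc.1 k
        have h7 := mul_self_pos.2 (h q (by simp))
        have h8 : 0 < q.2 * q.2 * (p.2 * e) := by nlinarith [mul_pos h6 h1]
        have := (mul_pos_iff_of_pos_left h7).1 h8
        nlinarith
      · rw [k]
        cases L' with
        | nil => simp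
        | cons r L' => rw [List.isChain_cons_cons] at h3 ⊢; exact h3
      · have := h4 v
        simp only [pw, List.map_cons, List.prod_cons] at this ⊢
        rw [← this, zpow_add, k, mul_assoc]
    · refine ⟨p.2, (q.1, e) :: L', hp, List.forall_mem_cons.2 ⟨⟨?_, q, by simp, rfl⟩, h5⟩,
        List.isChain_cons_cons.2 ⟨k, h3⟩, fun v => ?_⟩
      · rintro (rfl : e = 0)
        simp at h1
      · have := h4 v
        simp only [pw, List.map_cons, List.prod_cons] at this ⊢
        rw [this]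

/-- An identity between homomorphisms with non-abelian images has a visible cancellation. -/
theorem bpp_chain (L : List ((A →* G) × ℤ)) (hL : L ≠ []) (h : ∀ p ∈ L, NonAb p.1 ∧ p.2 ≠ 0)
    (h1 : ∀ v, pw L v = 1) : ¬ L.IsChain fun p q => p.1 = q.1 → 0 < p.2 * q.2 := by
  intro hc
  obtain ⟨p, L, rfl⟩ := List.exists_cons_of_ne_nil hL
  obtain ⟨e, L', k1, k2, k3, k4⟩ := merge p L (fun q hq => (h q hq).2) hc
  have k5 : e ≠ 0 := by
    rintro rfl
    simp at k1
  obtain ⟨v, hv⟩ := pw_ne ((p.1, e) :: L') (by simp)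
    (List.forall_mem_cons.2 ⟨⟨(h p (by simp)).1, k5⟩, fun q hq => by
      obtain ⟨a, r, hr, b⟩ := k2 q hq
      exact ⟨b ▸ (h r (List.mem_cons_of_mem _ hr)).1, a⟩⟩) k3
  exact hv ((k4 v).trans (h1 v))

/-- The same, with the position of the cancellation. -/
theorem bpp (L : List ((A →* G) × ℤ)) (hL : L ≠ []) (h : ∀ p ∈ L, NonAb p.1 ∧ p.2 ≠ 0)
    (h1 : ∀ v, pw L v = 1) :
    ∃ L₁ p q L₂, L = L₁ ++ p :: q :: L₂ ∧ p.1 = q.1 ∧ p.2 * q.2 < 0 := by
  by_contra k
  apply bpp_chain L hL h h1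
  rw [List.isChain_iff_forall_rel_of_append_cons_cons]
  intro p q L₁ L₂ e k2
  have hp := (h p (by simp [e])).2
  have hq := (h q (by simp [e])).2
  rcases lt_or_gt_of_ne (mul_ne_zero hp hq) with k3 | k3
  · exact absurd ⟨L₁, p, q, L₂, e, k2, k3⟩ k
  · exact k3

/-- The same, for indexed families. -/
theorem bpp_range {l : ℕ} (hl : l ≠ 0) (ψ : ℕ → A →* G) (e : ℕ → ℤ)
    (h : ∀ i < l, NonAb (ψ i) ∧ e i ≠ 0)
    (h1 : ∀ v, ((List.range l).map fun i => ψ i v ^ e i).prod = 1) :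
    ∃ i, i + 1 < l ∧ ψ i = ψ (i + 1) ∧ e i * e (i + 1) < 0 := by
  by_contra k
  refine bpp_chain ((List.range l).map fun i => (ψ i, e i)) (by simpa using hl) (fun p hp => ?_)
    (fun v => by rw [pw, List.map_map]; exact h1 v) ?_
  · obtain ⟨i, hi, rfl⟩ := List.mem_map.1 hp
    exact h i (List.mem_range.1 hi)
  · obtain ⟨l, rfl⟩ := Nat.exists_eq_succ_of_ne_zero hl
    rw [List.isChain_map, List.isChain_range_succ]
    intro i hi k2
    rcases lt_or_gt_of_ne (mul_ne_zero (h i (by omega)).2 (h (i + 1) (by omega)).2) with k3 | k3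
    · exact absurd ⟨i, by omega, k2, k3⟩ k
    · exact k3

/-- With positive exponents only, all images are abelian. -/
theorem bpp_pos (L : List ((A →* G) × ℤ)) (h : ∀ p ∈ L, 0 < p.2) (h1 : ∀ v, pw L v = 1) :
    ∀ p ∈ L, ¬ NonAb p.1 := by
  classical
  intro p hp k
  refine bpp_chain ((L.filter fun q => NonAb q.1).map
    fun q => (q.1.comp (commutator A).subtype, q.2)) ?_ (fun q hq => ?_) (fun v => ?_) ?_
  · simpa using ⟨p.1, ⟨p.2, hp⟩, k⟩
  · obtain ⟨r, hr, rfl⟩ := List.mem_map.1 hq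
    rw [List.mem_filter, decide_eq_true_eq] at hr
    exact ⟨hr.2.commutator, (h r hr.1).ne'⟩
  · rw [← h1 v]
    clear hp h1 h
    induction L with
    | nil => rfl
    | cons q L ih =>
      by_cases hq : NonAb q.1
      · rw [List.filter_cons_of_pos (by simpa using hq)]
        simp only [pw, List.map_cons, List.prod_cons] at ih ⊢
        rw [ih]; rfl
      · rw [List.filter_cons_of_neg (by simpa using hq), ih]
        have : q.1 v = 1 := by
          have h2 : commutator A ≤ q.1.ker := by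
            rw [commutator_def, Subgroup.commutator_le]
            intro x _ y _
            simp only [NonAb, not_exists, not_not] at hq
            rw [MonoidHom.mem_ker, map_commutatorElement]
            exact commutatorElement_eq_one_iff_commute.2 (hq x y)
          exact h2 v.2
        simp [pw, this]
  · refine List.Pairwise.isChain (List.pairwise_of_forall_mem_list fun a ha b hb _ => ?_)
    obtain ⟨r, hr, rfl⟩ := List.mem_map.1 ha
    obtain ⟨s, hs, rfl⟩ := List.mem_map.1 hb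
    exact mul_pos (h r (List.mem_of_mem_filter hr)) (h s (List.mem_of_mem_filter hs))

end Pool.Agent.MP_3ce0a0_al.Q2T4A
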