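import Pool.Agent.MP_3ce0a0_al.Q2T4A.Alg

/-! The Gromov product in a free group, overlaps of powers, and long products. -/

set_option autoImplicit false

namespace Pool.Agent.MP_3ce0a0_al.Q2T4A

open FreeGroup

/-- Length of the longest common initial segment. -/
def cpl {β : Type} [DecidableEq β] : List β → List β → ℕ
  | a :: l, b :: m => if a = b then cpl l m + 1 else 0
  | _, _ => 0

theorem le_cpl {β : Type} [DecidableEq β] : ∀ (k : ℕ) (l m : List β),
    k ≤ cpl l m ↔ k ≤ l.length ∧ k ≤ m.length ∧ l.take k = m.take k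
  | 0, _, _ => by simp
  | k + 1, [], _ => by simp [cpl]
  | k + 1, _ :: _, [] => by simp [cpl]
  | k + 1, a :: l, b :: m => by
    by_cases h : a = b
    · simp [cpl, h, le_cpl k l m]
    · simp [cpl, h]

variable {α : Type} [DecidableEq α]

/-- The Gromov product at `1`. -/
def gp (x y : FreeGroup α) : ℕ := cpl x.toWord y.toWord

/-- The point at distance `t` from `1` on the way to `g`. -/
def pt (g : FreeGroup α) (t : ℕ) : FreeGroup α := mk (g.toWord.take t)

theorem le_gp {k : ℕ} {x y : FreeGroup α} :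
    k ≤ gp x y ↔ k ≤ x.norm ∧ k ≤ y.norm ∧ x.toWord.take k = y.toWord.take k := le_cpl _ _ _

theorem norm_mk_red {l : List (α × Bool)} (h : IsReduced l) : (mk l).norm = l.length := by
  rw [FreeGroup.norm, toWord_mk, h.reduce_eq]

theorem red_invRev {l : List (α × Bool)} (h : IsReduced l) : IsReduced (invRev l) := by
  rw [isReduced_iff_reduce_eq, reduce_invRev, h.reduce_eq]

theorem cpl_eq : ∀ (l m : List (α × Bool)), IsReduced l → IsReduced m →
    ((mk l)⁻¹ * mk m).norm + 2 * cpl l m = l.length + m.length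
  | [], m, _, hm => by
    rw [← one_eq_mk, inv_one, one_mul, norm_mk_red hm]; simp [cpl]
  | a :: l, [], hl, _ => by
    rw [← one_eq_mk, mul_one, norm_inv_eq, norm_mk_red hl]; simp [cpl]
  | a :: l, b :: m, hl, hm => by
    by_cases h : a = b
    · subst h
      have := cpl_eq l m (List.IsChain.tail hl) (List.IsChain.tail hm)
      have e : (mk (a :: l))⁻¹ * mk (a :: m) = (mk l)⁻¹ * mk m := by
        rw [← List.singleton_append, ← List.singleton_append (l := m), ← mul_mk, ← mul_mk]
        group
      rw [e]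
      simp only [cpl, if_true, List.length_cons]
      omega
    · have h1 := red_invRev hl
      have h2 : IsReduced (invRev (a :: l) ++ b :: m) := by
        rw [invRev_cons] at h1 ⊢
        have : invRev [a] = [(a.1, !a.2)] := rfl
        rw [this] at h1 ⊢
        rw [List.append_assoc, List.singleton_append, FreeGroup.IsReduced,
          List.isChain_append_cons_cons]
        refine ⟨h1, fun k => ?_, hm⟩
        obtain ⟨a1, a2⟩ := a
        obtain ⟨b1, b2⟩ := b
        cases a2 <;> cases b2 <;> simp_all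
      rw [inv_mk, mul_mk, norm_mk_red h2]
      simp [cpl, h]

theorem gp_eq (x y : FreeGroup α) : (x⁻¹ * y).norm + 2 * gp x y = x.norm + y.norm := by
  have := cpl_eq x.toWord y.toWord isReduced_toWord isReduced_toWord
  rwa [mk_toWord, mk_toWord] at this

theorem norm_inv_mul (x y : FreeGroup α) : (x⁻¹ * y).norm = (y⁻¹ * x).norm := by
  rw [← norm_inv_eq, mul_inv_rev, inv_inv]

theorem gp_comm (x y : FreeGroup α) : gp x y = gp y x := by
  have h1 := gp_eq x y
  have h2 := gp_eq y x
  rw [norm_inv_mul] at h1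
  omega

theorem norm_mul_eq (x y : FreeGroup α) : (x * y).norm + 2 * gp x⁻¹ y = x.norm + y.norm := by
  simpa using gp_eq x⁻¹ y

theorem gp_le_left (x y : FreeGroup α) : gp x y ≤ x.norm := (le_gp.1 le_rfl).1

theorem gp_le_right (x y : FreeGroup α) : gp x y ≤ y.norm := (le_gp.1 le_rfl).2.1

/-- The tree inequality. -/
theorem gp_trans {k : ℕ} {x y z : FreeGroup α} (h1 : k ≤ gp x y) (h2 : k ≤ gp y z) :
    k ≤ gp x z := by
  rw [le_gp] at *
  exact ⟨h1.1, h2.2.1, h1.2.2.trans h2.2.2⟩

theorem gp_min (x y z : FreeGroup α) : min (gp x y) (gp y z) ≤ gp x z :=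
  gp_trans (min_le_left _ _) (min_le_right _ _)

theorem gp_mul_left (x y a : FreeGroup α) : gp (x * a) y ≤ gp x y + a.norm := by
  have h1 := gp_eq x y
  have h2 := gp_eq (x * a) y
  have h3 := norm_mul_le x a
  have h4 := norm_mul_le a ((x * a)⁻¹ * y)
  rw [show a * ((x * a)⁻¹ * y) = x⁻¹ * y by group] at h4
  omega

theorem gp_mul_right (x y a : FreeGroup α) : gp x (y * a) ≤ gp x y + a.norm := by
  rw [gp_comm, gp_comm x]; exact gp_mul_left _ _ _

theorem gp_self_mul (x r : FreeGroup α) : gp x (x * r) + gp x⁻¹ r = x.norm := by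
  have h1 := gp_eq x (x * r)
  have h2 := norm_mul_eq x r
  rw [inv_mul_cancel_left] at h1
  omega

theorem pt_eq {k : ℕ} {x y : FreeGroup α} (h : gp x y ≥ k) {s : ℕ} (hs : s ≤ k) :
    pt x s = pt y s := by
  rw [pt, pt, (le_gp.1 (hs.trans h)).2.2]

/-- Cyclic reduction: `ρ` is the distance to the axis, `τ` the translation length. -/
theorem cyc (c : FreeGroup α) : ∃ ρ τ : ℕ, (c ≠ 1 → 0 < τ) ∧ c.norm = 2 * ρ + τ ∧
    (∀ i : ℕ, i ≠ 0 → (c ^ i).norm = 2 * ρ + i * τ) ∧
    ∀ i s : ℕ, ρ ≤ s → s + τ + ρ ≤ (c ^ i).norm → c * pt (c ^ i) s = pt (c ^ i) (s + τ) := by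
  obtain ⟨u, w, e, hp⟩ : ∃ u w : List (α × Bool), u ++ w ++ invRev u = c.toWord ∧ ∀ i : ℕ,
      (c ^ (i + 1)).toWord = u ++ (List.replicate (i + 1) w).flatten ++ invRev u :=
    ⟨_, _, reduceCyclically.conj_conjugator_reduceCyclically _, fun i => by
      rw [toWord_pow, reduceCyclically.reduce_flatten_replicate_succ isReduced_toWord]⟩
  have ec : c = mk u * mk w * (mk u)⁻¹ := by rw [inv_mk, mul_mk, mul_mk, e, mk_toWord]
  have hn : ∀ i : ℕ, (c ^ (i + 1)).norm = 2 * u.length + (i + 1) * w.length := fun i => by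
    rw [FreeGroup.norm, hp]; simp; ring
  refine ⟨u.length, w.length, fun hc => ?_, by simpa using hn 0, fun i hi => ?_,
    fun i s h1 h2 => ?_⟩
  · rw [List.length_pos_iff]
    rintro rfl
    exact hc (by rw [ec, ← one_eq_mk, mul_one, mul_inv_cancel])
  · obtain ⟨i, rfl⟩ := Nat.exists_eq_succ_of_ne_zero hi
    exact hn i
  · cases i with
    | zero =>
      have h3 : s = 0 ∧ w.length = 0 ∧ u.length = 0 := by simp at h2; simpa [and_assoc] using h2
      rw [List.length_eq_zero_iff, List.length_eq_zero_iff] at h3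
      obtain ⟨rfl, rfl, rfl⟩ := h3
      rw [ec, ← one_eq_mk]; simp
    | succ i =>
      obtain ⟨s, rfl⟩ := Nat.exists_eq_add_of_le h1
      rw [hn] at h2
      have hl : (List.replicate i w).flatten.length = i * w.length := by simp
      have h3 : s ≤ (List.replicate i w).flatten.length := by rw [hl]; nlinarith
      have e1 : (c ^ (i + 1)).toWord.take (u.length + s) =
          u ++ (List.replicate i w).flatten.take s := by
        rw [hp, List.replicate_succ', List.flatten_concat, List.append_assoc,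
          List.take_length_add_append, List.append_assoc, List.take_append_of_le_length h3]
      have e2 : (c ^ (i + 1)).toWord.take (u.length + s + w.length) =
          u ++ (w ++ (List.replicate i w).flatten.take s) := by
        rw [hp, List.replicate_succ, List.flatten_cons, List.append_assoc, add_assoc,
          List.take_length_add_append, List.append_assoc, add_comm s,
          List.take_length_add_append, List.take_append_of_le_length h3]
      rw [pt, pt, e1, e2, ← mul_mk, ← mul_mk, ← mul_mk]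
      nth_rw 1 [ec]
      group

theorem le_norm_pow {c : FreeGroup α} (hc : c ≠ 1) (i : ℕ) : i ≤ (c ^ i).norm := by
  obtain ⟨ρ, τ, h1, -, h2, -⟩ := cyc c
  rcases eq_or_ne i 0 with rfl | hi
  · exact Nat.zero_le _
  · rw [h2 i hi]; nlinarith [h1 hc]

theorem le_norm_zpow {c : FreeGroup α} (hc : c ≠ 1) (i : ℤ) : i.natAbs ≤ (c ^ i).norm := by
  obtain ⟨n, rfl | rfl⟩ := i.eq_nat_or_neg
  · simpa using le_norm_pow hc n
  · simpa using le_norm_pow hc n

theorem overlap_nat {c d : FreeGroup α} (h : ¬ Commute c d) (i j : ℕ) :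
    gp (c ^ i) (d ^ j) < c.norm + d.norm := by
  by_contra k
  rw [not_lt] at k
  obtain ⟨ρ, τ, -, n1, -, s1⟩ := cyc c
  obtain ⟨ρ', τ', -, n2, -, s2⟩ := cyc d
  have l1 := gp_le_left (c ^ i) (d ^ j)
  have l2 := gp_le_right (c ^ i) (d ^ j)
  have e := fun s (hs : s ≤ c.norm + d.norm) => pt_eq k hs
  apply h
  apply mul_right_cancel (b := pt (c ^ i) (ρ + ρ'))
  rw [mul_assoc, mul_assoc, s1 i (ρ + ρ') (by omega) (by omega), e (ρ + ρ') (by omega),
    s2 j (ρ + ρ') (by omega) (by omega), ← e (ρ + ρ' + τ') (by omega),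
    s1 i _ (by omega) (by omega), e (ρ + ρ' + τ) (by omega), s2 j _ (by omega) (by omega),
    e _ (by omega), add_right_comm]

/-- Powers of non-commuting elements have a short common beginning. -/
theorem overlap {c d : FreeGroup α} (h : ¬ Commute c d) (i j : ℤ) :
    gp (c ^ i) (d ^ j) < c.norm + d.norm := by
  obtain ⟨n, rfl | rfl⟩ := i.eq_nat_or_neg <;> obtain ⟨m, rfl | rfl⟩ := j.eq_nat_or_neg
  · simpa using overlap_nat h n m
  · simpa using overlap_nat (d := d⁻¹) (by simpa using h) n m
  · simpa using overlap_nat (c := c⁻¹) (by simpa using h) n m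
  · simpa using overlap_nat (c := c⁻¹) (d := d⁻¹) (by simpa using h) n m

/-- Broken geodesics with long pieces and short cancellation. -/
theorem chain (C : ℕ) : ∀ (x : FreeGroup α) (L : List (FreeGroup α)),
    (∀ y ∈ x :: L, 2 * C < y.norm) → (x :: L).IsChain (fun a b => gp a⁻¹ b ≤ C) →
      x.norm ≤ gp x (x :: L).prod + C ∧
      ((x :: L).map FreeGroup.norm).sum ≤ (x :: L).prod.norm + 2 * C * L.length
  | x, [], _, _ => by
    have := gp_eq x x
    simp at this ⊢
    omega
  | x, y :: L, h1, h2 => by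
    rw [List.isChain_cons_cons] at h2
    obtain ⟨k1, k2⟩ := chain C y L (fun z hz => h1 z (List.mem_cons_of_mem _ hz)) h2.2
    have hy := h1 y (by simp)
    have k3 : gp x⁻¹ (y :: L).prod ≤ C := by
      by_contra k
      have := gp_trans (not_le.1 k) (show C + 1 ≤ gp (y :: L).prod y by rw [gp_comm]; omega)
      omega
    have k4 := gp_self_mul x (y :: L).prod
    have k5 := norm_mul_eq x (y :: L).prod
    rw [List.prod_cons (a := x), List.map_cons, List.sum_cons, List.length_cons, mul_add]
    omega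

end Pool.Agent.MP_3ce0a0_al.Q2T4A
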